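import Mathlib
import Pool.Agent.Lib.helper4.ResSum

namespace Pool.Agent.Results.MP_e0d2b2_an.ConstE

open Filter Topology

universe u

/-- `C` is admissible: for every nonzero complex Banach space `X`, every bounded operator `T` on `X`
with spectrum in the open unit disc and every `M` bounding `‖(z I - T)⁻¹‖` for all `|z| ≥ 1`,
the series `∑_{j ≥ 1} ‖T ^ j‖` converges and its sum is at most `C M (M - 1)`. -/
def Admissible (C : ℝ) : Prop :=
  ∀ (X : Type u) [NormedAddCommGroup X] [NormedSpace ℂ X] [CompleteSpace X] [Nontrivial X]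
    (T : X →L[ℂ] X) (M : ℝ),
    spectrum ℂ T ⊆ Metric.ball 0 1 →
    (∀ z : ℂ, 1 ≤ ‖z‖ → ‖resolvent T z‖ ≤ M) →
    Summable (fun j : ℕ => ‖T ^ (j + 1)‖) ∧ ∑' j : ℕ, ‖T ^ (j + 1)‖ ≤ C * M * (M - 1)

lemma upper : Admissible.{u} (Real.exp 1) := by
  intro X _ _ _ _ T M hs hM
  have key : ∀ w : ℂ, w ≠ 0 → (1 : X →L[ℂ] X) - w • T
      = w • (algebraMap ℂ (X →L[ℂ] X) w⁻¹ - T) := by
    intro w hw
    rw [smul_sub, Algebra.algebraMap_eq_smul_one, smul_smul, mul_inv_cancel₀ hw, one_smul]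
  have hun : ∀ w : ℂ, w ≠ 0 → ‖w‖ ≤ 1 → IsUnit (algebraMap ℂ (X →L[ℂ] X) w⁻¹ - T) := by
    intro w hw h1
    by_contra hn
    have h2 : w⁻¹ ∈ spectrum ℂ T := hn
    have h3 := hs h2
    rw [mem_ball_zero_iff, norm_inv] at h3
    have h4 : 0 < ‖w‖ := norm_pos_iff.2 hw
    have := (inv_lt_one₀ h4).1 h3
    linarith
  have hU : ∀ w : ℂ, ‖w‖ ≤ 1 → IsUnit ((1 : X →L[ℂ] X) - w • T) := by
    intro w h1
    by_cases hw : w = 0
    · simp [hw]
    · rw [key w hw]
      exact (hun w hw h1).smul (Units.mk0 w hw)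
  have hR : ∀ w : ℂ, ‖w‖ = 1 → ‖H4ResSum.R T w‖ ≤ M := by
    intro w h1
    have hw : w ≠ 0 := by
      intro h; rw [h, norm_zero] at h1; exact zero_ne_one h1
    have h2 : H4ResSum.R T w = w⁻¹ • resolvent T w⁻¹ := by
      unfold H4ResSum.R resolvent
      obtain ⟨v, hv⟩ := hun w hw h1.le
      rw [key w hw, ← hv, Ring.inverse_unit]
      have : w • (v : X →L[ℂ] X) = ((Units.mk0 w hw • v : (X →L[ℂ] X)ˣ) : X →L[ℂ] X) := rfl
      rw [this, Ring.inverse_unit]
      rfl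
    rw [h2, norm_smul, norm_inv, h1, inv_one, one_mul]
    exact hM _ (by rw [norm_inv, h1, inv_one])
  have hb := H4ResSum.pow_bound T M hU hR
  have h1 : 1 ≤ M := by simpa using hb 0 0
  have hg : H4ResSum.Good (fun j => ‖T ^ j‖) M := ⟨fun _ => norm_nonneg _, by linarith, hb⟩
  exact ⟨H4ResSum.summable_shift hg 1, H4ResSum.main hg h1⟩

/-! ### The extremal example -/

lemma bd1 (w : ℂ) : ‖(Real.exp (-‖w‖) : ℂ)‖ ≤ 1 := by
  rw [Complex.norm_real, Real.norm_eq_abs, abs_of_pos (Real.exp_pos _)]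
  exact Real.exp_le_one_iff.2 (by simp)

lemma bd2 (w : ℂ) : ‖w * (Real.exp (-‖w‖) : ℂ)‖ ≤ Real.exp (-1) := by
  rw [norm_mul, Complex.norm_real, Real.norm_eq_abs, abs_of_pos (Real.exp_pos _)]
  have h := Real.add_one_le_exp (‖w‖ - 1)
  have e : Real.exp (-1) = Real.exp (‖w‖ - 1) * Real.exp (-‖w‖) := by
    rw [← Real.exp_add]; congr 1; ring
  rw [e]
  exact mul_le_mul_of_nonneg_right (by linarith) (Real.exp_pos _).le

noncomputable def f1 : BoundedContinuousFunction ℂ ℂ :=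
  BoundedContinuousFunction.ofNormedAddCommGroup (fun w => (Real.exp (-‖w‖) : ℂ))
    (by fun_prop) 1 bd1

noncomputable def f2 : BoundedContinuousFunction ℂ ℂ :=
  BoundedContinuousFunction.ofNormedAddCommGroup (fun w => w * (Real.exp (-‖w‖) : ℂ))
    (by fun_prop) (Real.exp (-1)) bd2

def V : Type u := ULift.{u} (ℂ × ℂ)

instance : AddCommGroup V.{u} := inferInstanceAs (AddCommGroup (ULift.{u} (ℂ × ℂ)))
noncomputable instance : Module ℂ V.{u} := inferInstanceAs (Module ℂ (ULift.{u} (ℂ × ℂ)))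
instance : Module.Finite ℂ V.{u} := inferInstanceAs (Module.Finite ℂ (ULift.{u} (ℂ × ℂ)))
instance : Nontrivial V.{u} := inferInstanceAs (Nontrivial (ULift.{u} (ℂ × ℂ)))

def mk (x y : ℂ) : V.{u} := ULift.up (x, y)
def p1 (v : V.{u}) : ℂ := (ULift.down v).1
def p2 (v : V.{u}) : ℂ := (ULift.down v).2

lemma ext' {v w : V.{u}} (h1 : p1 v = p1 w) (h2 : p2 v = p2 w) : v = w :=
  ULift.ext _ _ (Prod.ext h1 h2)

noncomputable def emb : V.{u} →ₗ[ℂ] BoundedContinuousFunction ℂ ℂ where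
  toFun v := p1 v • f1 + p2 v • f2
  map_add' v w := by
    have a1 : p1 (v + w) = p1 v + p1 w := rfl
    have a2 : p2 (v + w) = p2 v + p2 w := rfl
    rw [a1, a2, add_smul, add_smul]; abel
  map_smul' c v := by
    have a1 : p1 (c • v) = c * p1 v := rfl
    have a2 : p2 (c • v) = c * p2 v := rfl
    rw [a1, a2, RingHom.id_apply, smul_add, smul_smul, smul_smul]

lemma emb_apply (v : V.{u}) (w : ℂ) : emb v w = (p1 v + w * p2 v) * (Real.exp (-‖w‖) : ℂ) := by
  have : emb v w = p1 v * (Real.exp (-‖w‖) : ℂ) + p2 v * (w * (Real.exp (-‖w‖) : ℂ)) := rfl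
  rw [this]; ring

lemma emb_inj : Function.Injective emb.{u} := by
  rw [injective_iff_map_eq_zero]
  intro v hv
  have h0 := emb_apply v 0
  have h1 := emb_apply v 1
  rw [hv] at h0 h1
  have n : ∀ t : ℝ, (Real.exp t : ℂ) ≠ 0 := fun t => by exact_mod_cast (Real.exp_pos t).ne'
  have a0 : p1 v + 0 * p2 v = 0 := (mul_eq_zero.1 h0.symm).resolve_right (n _)
  have a1 : p1 v + 1 * p2 v = 0 := (mul_eq_zero.1 h1.symm).resolve_right (n _)
  have b1 : p1 v = 0 := by simpa using a0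
  have b2 : p2 v = 0 := by simpa [b1] using a1
  exact ext' b1 b2

noncomputable instance : NormedAddCommGroup V.{u} :=
  NormedAddCommGroup.induced V.{u} _ emb emb_inj

noncomputable instance : NormedSpace ℂ V.{u} := NormedSpace.induced ℂ V.{u} _ emb

instance : CompleteSpace V.{u} := FiniteDimensional.complete ℂ V.{u}

lemma norm_eq (v : V.{u}) : ‖v‖ = ‖emb v‖ := rfl

noncomputable def S : V.{u} →L[ℂ] V.{u} :=
  LinearMap.toContinuousLinearMap
    { toFun := fun v => mk (p2 v) 0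
      map_add' := fun v w => ext' rfl (by change (0 : ℂ) = 0 + 0; simp)
      map_smul' := fun c v => ext' rfl (by change (0 : ℂ) = c * 0; simp) }

lemma S_apply (v : V.{u}) : S v = mk (p2 v) 0 := rfl

lemma S_sq : S.{u} * S.{u} = 0 := by
  ext v
  rfl

lemma norm_one_add (c : ℂ) : ‖(1 : V.{u} →L[ℂ] V.{u}) + c • S‖ ≤ Real.exp ‖c‖ := by
  refine ContinuousLinearMap.opNorm_le_bound _ (Real.exp_pos _).le fun v => ?_
  rw [norm_eq, norm_eq]
  refine (BoundedContinuousFunction.norm_le (by positivity)).2 fun w => ?_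
  have a1 : p1 (((1 : V.{u} →L[ℂ] V.{u}) + c • S) v) = p1 v + c * p2 v := rfl
  have a2 : p2 (((1 : V.{u} →L[ℂ] V.{u}) + c • S) v) = p2 v + c * 0 := rfl
  have h := (emb v).norm_coe_le_norm (w + c)
  rw [emb_apply, norm_mul, Complex.norm_real, Real.norm_eq_abs, abs_of_pos (Real.exp_pos _)] at h
  rw [emb_apply, a1, a2, norm_mul, Complex.norm_real, Real.norm_eq_abs,
    abs_of_pos (Real.exp_pos _)]
  have e : p1 v + c * p2 v + w * (p2 v + c * 0) = p1 v + (w + c) * p2 v := by ring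
  rw [e]
  have h2 : Real.exp (-‖w‖) ≤ Real.exp ‖c‖ * Real.exp (-‖w + c‖) := by
    rw [← Real.exp_add]
    exact Real.exp_le_exp.2 (by linarith [norm_add_le w c])
  calc _ ≤ ‖p1 v + (w + c) * p2 v‖ * (Real.exp ‖c‖ * Real.exp (-‖w + c‖)) :=
        mul_le_mul_of_nonneg_left h2 (norm_nonneg _)
    _ = Real.exp ‖c‖ * (‖p1 v + (w + c) * p2 v‖ * Real.exp (-‖w + c‖)) := by ring
    _ ≤ _ := mul_le_mul_of_nonneg_left h (Real.exp_pos _).le

lemma norm_S : Real.exp 1 ≤ ‖S.{u}‖ := by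
  have h := S.{u}.le_opNorm (mk 0 1)
  have h1 : ‖(mk 0 1 : V.{u})‖ ≤ Real.exp (-1) := by
    rw [norm_eq]
    refine (BoundedContinuousFunction.norm_le (by positivity)).2 fun w => ?_
    rw [emb_apply]
    have e : p1 (mk 0 1 : V.{u}) + w * p2 (mk 0 1 : V.{u}) = w := by
      change 0 + w * 1 = w
      ring
    rw [e]; exact bd2 w
  have h2 : 1 ≤ ‖S (mk 0 1 : V.{u})‖ := by
    rw [norm_eq]
    have := (emb (S (mk 0 1 : V.{u}))).norm_coe_le_norm 0
    rw [emb_apply] at this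
    have e : p1 (S (mk 0 1 : V.{u})) + 0 * p2 (S (mk 0 1 : V.{u})) = 1 := by
      change 1 + 0 * 0 = (1 : ℂ)
      ring
    rw [e] at this
    simpa using this
  have h3 : 1 ≤ ‖S.{u}‖ * Real.exp (-1) :=
    h2.trans (h.trans (mul_le_mul_of_nonneg_left h1 (norm_nonneg _)))
  have h4 : Real.exp 1 * Real.exp (-1) = 1 := by rw [← Real.exp_add]; simp
  have h5 := Real.exp_pos (-1)
  nlinarith

lemma inv_eq (δ z : ℂ) (hz : z ≠ 0) :
    (algebraMap ℂ (V.{u} →L[ℂ] V.{u}) z - δ • S) * (z⁻¹ • (1 + (δ / z) • S)) = 1 ∧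
    (z⁻¹ • (1 + (δ / z) • S)) * (algebraMap ℂ (V.{u} →L[ℂ] V.{u}) z - δ • S) = 1 := by
  rw [Algebra.algebraMap_eq_smul_one]
  constructor
  · simp only [sub_mul, mul_add, smul_add, smul_mul_assoc, mul_smul_comm, one_mul, mul_one, S_sq,
      smul_zero, smul_smul, smul_sub]
    match_scalars <;> field_simp <;> ring
  · simp only [mul_sub, add_mul, smul_add, smul_mul_assoc, mul_smul_comm, one_mul, mul_one, S_sq,
      smul_zero, smul_smul, add_zero]
    match_scalars <;> field_simp <;> ring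

lemma lower_aux {C : ℝ} (hC : Admissible.{u} C) (δ : ℝ) (hδ : 0 < δ) :
    δ * Real.exp 1 ≤ C * Real.exp δ * (Real.exp δ - 1) := by
  let un : ∀ z : ℂ, z ≠ 0 → (V.{u} →L[ℂ] V.{u})ˣ := fun z hz =>
    ⟨_, _, (inv_eq δ z hz).1, (inv_eq δ z hz).2⟩
  have h := hC V.{u} ((δ : ℂ) • S) (Real.exp δ) ?_ ?_
  · have h1 := h.1.le_tsum 0 (fun j _ => norm_nonneg _)
    have h2 : ‖((δ : ℂ) • S.{u}) ^ (0 + 1)‖ = δ * ‖S.{u}‖ := by
      rw [zero_add, pow_one, norm_smul, Complex.norm_real, Real.norm_eq_abs, abs_of_pos hδ]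
    have h3 := mul_le_mul_of_nonneg_left norm_S.{u} hδ.le
    linarith [h.2]
  · intro z hz
    by_contra hn
    have hz0 : z ≠ 0 := by
      rintro rfl
      exact hn (Metric.mem_ball_self one_pos)
    exact hz ⟨un z hz0, rfl⟩
  · intro z hz
    have hz0 : z ≠ 0 := by
      rintro rfl
      rw [norm_zero] at hz; linarith
    have e : resolvent ((δ : ℂ) • S.{u}) z = z⁻¹ • (1 + ((δ : ℂ) / z) • S) :=
      Ring.inverse_unit (un z hz0)
    rw [e, norm_smul, norm_inv]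
    have a1 : ‖z‖⁻¹ ≤ 1 := inv_le_one_of_one_le₀ hz
    have a2 : ‖(δ : ℂ) / z‖ ≤ δ := by
      rw [norm_div, Complex.norm_real, Real.norm_eq_abs, abs_of_pos hδ]
      exact div_le_self hδ.le hz
    have a3 := (norm_one_add.{u} ((δ : ℂ) / z)).trans (Real.exp_le_exp.2 a2)
    calc _ ≤ 1 * Real.exp δ := mul_le_mul a1 a3 (norm_nonneg _) zero_le_one
      _ = _ := one_mul _

lemma lower {C : ℝ} (hC : Admissible.{u} C) : Real.exp 1 ≤ C := by
  have hd : HasDerivAt Real.exp 1 0 := by simpa using Real.hasDerivAt_exp 0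
  have h1 := hd.tendsto_slope_zero_right
  have h2 : Tendsto (fun δ : ℝ => Real.exp δ) (𝓝[>] 0) (𝓝 1) := by
    apply Tendsto.mono_left _ nhdsWithin_le_nhds
    simpa using Real.continuous_exp.tendsto 0
  have h3 := (h2.const_mul C).mul h1
  rw [mul_one, mul_one] at h3
  refine ge_of_tendsto h3 ?_
  filter_upwards [self_mem_nhdsWithin] with δ hδ
  have hδ' : 0 < δ := hδ
  have h4 := lower_aux hC δ hδ'
  simp only [zero_add, Real.exp_zero, smul_eq_mul]
  have e : C * Real.exp δ * (δ⁻¹ * (Real.exp δ - 1))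
      = C * Real.exp δ * (Real.exp δ - 1) / δ := by field_simp
  rw [e, le_div_iff₀ hδ']
  linarith

/-- The best constant is `C* = e`: `e` is admissible, no smaller constant is, and so the infimum
of the admissible constants is `e`. -/
theorem result :
    IsLeast {C : ℝ | 0 < C ∧ Admissible.{u} C} (Real.exp 1) ∧
      sInf {C : ℝ | 0 < C ∧ Admissible.{u} C} = Real.exp 1 := by
  have h : IsLeast {C : ℝ | 0 < C ∧ Admissible.{u} C} (Real.exp 1) :=
    ⟨⟨Real.exp_pos 1, upper⟩, fun _ hC => lower hC.2⟩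
  exact ⟨h, h.csInf_eq⟩

end Pool.Agent.Results.MP_e0d2b2_an.ConstE
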